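import Pool.Graph.R_seed8.H581R2.SplayDef

set_option autoImplicit false

/-! Semisplaying in binary search trees (definitions). -/

namespace Pool.Agent.H68.SS

open Pool.Agent.H581R2.Splay Tr

/-- The steps of semisplaying. The current node `c` is the root of the tree `t`, the list contains
the frames above it (the nearest first), that is the parent `p`, the grandparent `g`, .... If `c` is
the root or a child of the root, the procedure stops. If `c` and `p` are both left children or both
right children (zig-zig), only the edge between `p` and `g` is rotated, and `p` becomes the current
node. Otherwise (zig-zag) the edge `c`-`p` and then the edge `c`-`g` is rotated, and `c` stays the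
current node. (The last line is never used, a current node exists.) -/
def semi : List Fr → Tr → Tr
  | [], t => t
  | [f], t => plug1 f t
  | Fr.inL y c :: Fr.inL z d :: fs, t => semi fs (node y t (node z c d))
  | Fr.inR y c :: Fr.inR z d :: fs, t => semi fs (node y (node z d c) t)
  | Fr.inL y c :: Fr.inR z d :: fs, node x l r => semi fs (node x (node z d l) (node y r c))
  | Fr.inR y c :: Fr.inL z d :: fs, node x l r => semi fs (node x (node y c l) (node z r d))
  | f :: g :: fs, nil => plug (f :: g :: fs) nil

/-- The number of rotations in these steps: one for a zig-zig step, two for a zig-zag step. -/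
def rotCount : List Fr → ℕ
  | Fr.inL _ _ :: Fr.inL _ _ :: fs => 1 + rotCount fs
  | Fr.inR _ _ :: Fr.inR _ _ :: fs => 1 + rotCount fs
  | Fr.inL _ _ :: Fr.inR _ _ :: fs => 2 + rotCount fs
  | Fr.inR _ _ :: Fr.inL _ _ :: fs => 2 + rotCount fs
  | _ => 0

/-- The tree after the access to `x` and semisplaying. -/
def semisplay (x : ℕ) (t : Tr) : Tr :=
  semi (locate x t []).1 (node x (locate x t []).2.1 (locate x t []).2.2)

/-- The cost of serving the requests `X` by semisplaying, starting from the tree `T`: every request
costs one plus the depth of the key, and every rotation costs one. -/
def costSemi : Tr → List ℕ → ℕ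
  | _, [] => 0
  | T, x :: X => 1 + dep x T + rotCount (locate x T []).1 + costSemi (semisplay x T) X

end Pool.Agent.H68.SS
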