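import Pool.Graph.R_pool_sql_team_seeded_ab47071d.TH908.SPL.Level
import Pool.Agent.H68.SS.Defs

set_option autoImplicit false

/-! The amortised cost of semisplaying for level functions. -/

namespace Pool.Agent.H68.SS

open Pool.Agent.H581R2.Splay Pool.Agent.TH908.SPL Tr

variable {M : ℕ} {f : ℕ → ℕ}

theorem zigzigL (y z : ℕ) (t c d : Tr) (ht : t ≠ nil) (h0 : mn M f t < M)
    (hs : (keys (node z (node y t c) d)).Pairwise (· < ·))
    (hg : GoodM M f (keys (node z (node y t c) d)))
    (hM : ∀ k ∈ keys (node z (node y t c) d), f k ≤ M) :
    4 + 4 * Phi M f (node y t (node z c d)) ≤ 4 * Phi M f (node z (node y t c) d) +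
      8 * ((mn M f t : ℤ) - mn M f (node z (node y t c) d)) := by
  have a1 : mn M f (node z (node y t c) d) ≤ mn M f (node y t c) := mn_node_le_l _ _ _
  have a2 : mn M f (node y t c) ≤ mn M f t := mn_node_le_l _ _ _
  have key := disj_auxM (M := M) (u := t) (v := node z c d) hg hM (by omega)
    (by intro k hk; simp only [keys, List.mem_append, List.mem_cons] at hk ⊢; tauto)
    (by intro k hk; simp only [keys, List.mem_append, List.mem_cons] at hk ⊢; tauto)
    ht (by simp)
    (by
      intro k hk k' hk'
      have : k < k' := by
        have e : keys (node z (node y t c) d) = keys t ++ (y :: keys (node z c d)) := by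
          simp [keys]
        rw [e, List.pairwise_append] at hs
        exact hs.2.2 k hk k' (by simp [hk'])
      omega)
  have e1 : mn M f (node y t (node z c d)) = mn M f (node z (node y t c) d) := by
    simp only [mn, min_assoc, min_comm, min_left_comm]
  simp only [Phi]
  rw [e1]
  generalize mn M f (node z (node y t c) d) = m2 at *
  generalize mn M f (node y t c) = m3 at *
  generalize mn M f t = m4 at *
  generalize mn M f (node z c d) = m6 at *
  omega

theorem zigzigR (y z : ℕ) (t c d : Tr) (ht : t ≠ nil) (h0 : mn M f t < M)
    (hs : (keys (node z d (node y c t))).Pairwise (· < ·))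
    (hg : GoodM M f (keys (node z d (node y c t))))
    (hM : ∀ k ∈ keys (node z d (node y c t)), f k ≤ M) :
    4 + 4 * Phi M f (node y (node z d c) t) ≤ 4 * Phi M f (node z d (node y c t)) +
      8 * ((mn M f t : ℤ) - mn M f (node z d (node y c t))) := by
  have a1 : mn M f (node z d (node y c t)) ≤ mn M f (node y c t) := mn_node_le_r _ _ _
  have a2 : mn M f (node y c t) ≤ mn M f t := mn_node_le_r _ _ _
  have key := disj_auxM (M := M) (u := t) (v := node z d c) hg hM (by omega)
    (by intro k hk; simp only [keys, List.mem_append, List.mem_cons] at hk ⊢; tauto)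
    (by intro k hk; simp only [keys, List.mem_append, List.mem_cons] at hk ⊢; tauto)
    ht (by simp)
    (by
      intro k hk k' hk'
      have : k' < k := by
        have e : keys (node z d (node y c t)) = keys (node z d c) ++ (y :: keys t) := by
          simp [keys]
        rw [e, List.pairwise_append] at hs
        exact hs.2.2 k' hk' k (by simp [hk])
      omega)
  have e1 : mn M f (node y (node z d c) t) = mn M f (node z d (node y c t)) := by
    simp only [mn, min_assoc, min_comm, min_left_comm]
  simp only [Phi]
  rw [e1]
  generalize mn M f (node z d (node y c t)) = m2 at *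
  generalize mn M f (node y c t) = m3 at *
  generalize mn M f t = m4 at *
  generalize mn M f (node z d c) = m6 at *
  omega

theorem zigzagL (x y z : ℕ) (l r c d : Tr) (h0 : mn M f (node x l r) < M)
    (hs : (keys (node z d (node y (node x l r) c))).Pairwise (· < ·))
    (hg : GoodM M f (keys (node z d (node y (node x l r) c))))
    (hM : ∀ k ∈ keys (node z d (node y (node x l r) c)), f k ≤ M) :
    4 + 4 * Phi M f (node x (node z d l) (node y r c)) ≤
      4 * Phi M f (node z d (node y (node x l r) c)) +
        8 * ((mn M f (node x l r) : ℤ) - mn M f (node z d (node y (node x l r) c))) := by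
  have a1 : mn M f (node z d (node y (node x l r) c)) ≤ mn M f (node y (node x l r) c) :=
    mn_node_le_r _ _ _
  have a2 : mn M f (node y (node x l r) c) ≤ mn M f (node x l r) := mn_node_le_l _ _ _
  have key := disj_auxM (M := M) (u := node z d l) (v := node y r c) hg hM (by omega)
    (by intro k hk; simp only [keys, List.mem_append, List.mem_cons] at hk ⊢; tauto)
    (by intro k hk; simp only [keys, List.mem_append, List.mem_cons] at hk ⊢; tauto)
    (by simp) (by simp)
    (by
      intro k hk k' hk'
      have : k < k' := by
        have e : keys (node z d (node y (node x l r) c)) =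
            keys (node z d l) ++ (x :: keys (node y r c)) := by simp [keys]
        rw [e, List.pairwise_append] at hs
        exact hs.2.2 k hk k' (by simp [hk'])
      omega)
  have e1 : mn M f (node x (node z d l) (node y r c)) =
      mn M f (node z d (node y (node x l r) c)) := by
    simp only [mn, min_assoc, min_comm, min_left_comm]
  simp only [Phi]
  rw [e1]
  generalize mn M f (node z d (node y (node x l r) c)) = m2 at *
  generalize mn M f (node y (node x l r) c) = m3 at *
  generalize mn M f (node x l r) = m4 at *
  generalize mn M f (node y r c) = m5 at *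
  generalize mn M f (node z d l) = m6 at *
  omega

theorem zigzagR (x y z : ℕ) (l r c d : Tr) (h0 : mn M f (node x l r) < M)
    (hs : (keys (node z (node y c (node x l r)) d)).Pairwise (· < ·))
    (hg : GoodM M f (keys (node z (node y c (node x l r)) d)))
    (hM : ∀ k ∈ keys (node z (node y c (node x l r)) d), f k ≤ M) :
    4 + 4 * Phi M f (node x (node y c l) (node z r d)) ≤
      4 * Phi M f (node z (node y c (node x l r)) d) +
        8 * ((mn M f (node x l r) : ℤ) - mn M f (node z (node y c (node x l r)) d)) := by
  have a1 : mn M f (node z (node y c (node x l r)) d) ≤ mn M f (node y c (node x l r)) :=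
    mn_node_le_l _ _ _
  have a2 : mn M f (node y c (node x l r)) ≤ mn M f (node x l r) := mn_node_le_r _ _ _
  have key := disj_auxM (M := M) (u := node y c l) (v := node z r d) hg hM (by omega)
    (by intro k hk; simp only [keys, List.mem_append, List.mem_cons] at hk ⊢; tauto)
    (by intro k hk; simp only [keys, List.mem_append, List.mem_cons] at hk ⊢; tauto)
    (by simp) (by simp)
    (by
      intro k hk k' hk'
      have : k < k' := by
        have e : keys (node z (node y c (node x l r)) d) =
            keys (node y c l) ++ (x :: keys (node z r d)) := by simp [keys]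
        rw [e, List.pairwise_append] at hs
        exact hs.2.2 k hk k' (by simp [hk'])
      omega)
  have e1 : mn M f (node x (node y c l) (node z r d)) =
      mn M f (node z (node y c (node x l r)) d) := by
    simp only [mn, min_assoc, min_comm, min_left_comm]
  simp only [Phi]
  rw [e1]
  generalize mn M f (node z (node y c (node x l r)) d) = m2 at *
  generalize mn M f (node y c (node x l r)) = m3 at *
  generalize mn M f (node x l r) = m4 at *
  generalize mn M f (node y c l) = m5 at *
  generalize mn M f (node z r d) = m6 at *
  omega

theorem semi_pot : ∀ (fs : List Fr) (t : Tr), t ≠ nil → mn M f t < M →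
    (keys (plug fs t)).Pairwise (· < ·) → GoodM M f (keys (plug fs t)) →
    (∀ k ∈ keys (plug fs t), f k ≤ M) →
    keys (semi fs t) = keys (plug fs t) ∧
    ((fs.length + rotCount fs : ℕ) : ℤ) + 4 * Phi M f (semi fs t) ≤
      4 * Phi M f (plug fs t) + 8 * ((mn M f t : ℤ) - mn M f (plug fs t)) + 1 := by
  intro fs
  induction hn : fs.length using Nat.strong_induction_on generalizing fs with
  | _ n ih =>
    intro t ht h0 hs hg hM
    match fs, hn with
    | [], hn =>
      subst hn
      simp only [semi, plug, List.length_nil, rotCount]
      refine ⟨trivial, ?_⟩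
      push_cast
      omega
    | [Fr.inL y c], hn =>
      subst hn
      refine ⟨by simp [semi, plug], ?_⟩
      simp only [semi, plug, plug1, List.length_singleton, rotCount]
      have a1 := mn_node_le_l (M := M) (f := f) y t c
      push_cast
      omega
    | [Fr.inR y c], hn =>
      subst hn
      refine ⟨by simp [semi, plug], ?_⟩
      simp only [semi, plug, plug1, List.length_singleton, rotCount]
      have a1 := mn_node_le_r (M := M) (f := f) y c t
      push_cast
      omega
    | Fr.inL y c :: Fr.inL z d :: fs, hn =>
      simp only [List.length_cons] at hn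
      have hk : keys (node y t (node z c d)) = keys (node z (node y t c) d) := by simp [keys]
      have hp : plug (Fr.inL y c :: Fr.inL z d :: fs) t = plug fs (node z (node y t c) d) := rfl
      rw [hp] at hs hg hM ⊢
      have hk2 : keys (plug fs (node y t (node z c d))) =
          keys (plug fs (node z (node y t c) d)) := by rw [keys_plug, keys_plug, hk]
      have hm : mn M f (node y t (node z c d)) = mn M f (node z (node y t c) d) := by
        simp only [mn, min_assoc, min_comm, min_left_comm]
      have a1 : mn M f (node z (node y t c) d) ≤ mn M f (node y t c) := mn_node_le_l _ _ _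
      have a2 : mn M f (node y t c) ≤ mn M f t := mn_node_le_l _ _ _
      obtain ⟨i1, i2⟩ := ih fs.length (by omega) fs rfl (node y t (node z c d)) (by simp)
        (by omega) (by rw [hk2]; exact hs) (by rw [hk2]; exact hg) (by rw [hk2]; exact hM)
      have hs' := hs
      have hg' := hg
      rw [keys_plug] at hs' hg'
      have hs2 : (keys (node z (node y t c) d)).Pairwise (· < ·) :=
        (List.pairwise_append.1 (List.pairwise_append.1 hs').1).2.1
      have st := zigzigL (M := M) (f := f) y z t c d ht h0 hs2 (goodM_infix hs' hg')
        (fun k hk => hM k (by rw [keys_plug]; simp [hk]))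
      have pc := phi_plug_congr (M := M) (f := f) fs _ _ hm
      have mc := mn_plug_congr (M := M) (f := f) fs _ _ hm
      refine ⟨by simp only [semi]; rw [i1, hk2], ?_⟩
      simp only [semi, rotCount]
      rw [mc] at i2
      rw [hm] at i2
      rw [← hn]
      push_cast at i2 ⊢
      linarith
    | Fr.inR y c :: Fr.inR z d :: fs, hn =>
      simp only [List.length_cons] at hn
      have hk : keys (node y (node z d c) t) = keys (node z d (node y c t)) := by simp [keys]
      have hp : plug (Fr.inR y c :: Fr.inR z d :: fs) t = plug fs (node z d (node y c t)) := rfl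
      rw [hp] at hs hg hM ⊢
      have hk2 : keys (plug fs (node y (node z d c) t)) =
          keys (plug fs (node z d (node y c t))) := by rw [keys_plug, keys_plug, hk]
      have hm : mn M f (node y (node z d c) t) = mn M f (node z d (node y c t)) := by
        simp only [mn, min_assoc, min_comm, min_left_comm]
      have a1 : mn M f (node z d (node y c t)) ≤ mn M f (node y c t) := mn_node_le_r _ _ _
      have a2 : mn M f (node y c t) ≤ mn M f t := mn_node_le_r _ _ _
      obtain ⟨i1, i2⟩ := ih fs.length (by omega) fs rfl (node y (node z d c) t) (by simp)
        (by omega) (by rw [hk2]; exact hs) (by rw [hk2]; exact hg) (by rw [hk2]; exact hM)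
      have hs' := hs
      have hg' := hg
      rw [keys_plug] at hs' hg'
      have hs2 : (keys (node z d (node y c t))).Pairwise (· < ·) :=
        (List.pairwise_append.1 (List.pairwise_append.1 hs').1).2.1
      have st := zigzigR (M := M) (f := f) y z t c d ht h0 hs2 (goodM_infix hs' hg')
        (fun k hk => hM k (by rw [keys_plug]; simp [hk]))
      have pc := phi_plug_congr (M := M) (f := f) fs _ _ hm
      have mc := mn_plug_congr (M := M) (f := f) fs _ _ hm
      refine ⟨by simp only [semi]; rw [i1, hk2], ?_⟩
      simp only [semi, rotCount]
      rw [mc] at i2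
      rw [hm] at i2
      rw [← hn]
      push_cast at i2 ⊢
      linarith
    | Fr.inL y c :: Fr.inR z d :: fs, hn =>
      simp only [List.length_cons] at hn
      obtain ⟨x, l, r, rfl⟩ : ∃ x l r, t = node x l r := by
        cases t with
        | nil => exact absurd rfl ht
        | node x l r => exact ⟨x, l, r, rfl⟩
      have hk : keys (node x (node z d l) (node y r c)) =
          keys (node z d (node y (node x l r) c)) := by simp [keys]
      have hp : plug (Fr.inL y c :: Fr.inR z d :: fs) (node x l r) =
          plug fs (node z d (node y (node x l r) c)) := rfl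
      rw [hp] at hs hg hM ⊢
      have hk2 : keys (plug fs (node x (node z d l) (node y r c))) =
          keys (plug fs (node z d (node y (node x l r) c))) := by
        rw [keys_plug, keys_plug, hk]
      have hm : mn M f (node x (node z d l) (node y r c)) =
          mn M f (node z d (node y (node x l r) c)) := by
        simp only [mn, min_assoc, min_comm, min_left_comm]
      have a1 : mn M f (node z d (node y (node x l r) c)) ≤ mn M f (node y (node x l r) c) :=
        mn_node_le_r _ _ _
      have a2 : mn M f (node y (node x l r) c) ≤ mn M f (node x l r) := mn_node_le_l _ _ _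
      obtain ⟨i1, i2⟩ := ih fs.length (by omega) fs rfl (node x (node z d l) (node y r c))
        (by simp) (by omega) (by rw [hk2]; exact hs) (by rw [hk2]; exact hg)
        (by rw [hk2]; exact hM)
      have hs' := hs
      have hg' := hg
      rw [keys_plug] at hs' hg'
      have hs2 : (keys (node z d (node y (node x l r) c))).Pairwise (· < ·) :=
        (List.pairwise_append.1 (List.pairwise_append.1 hs').1).2.1
      have st := zigzagL (M := M) (f := f) x y z l r c d h0 hs2 (goodM_infix hs' hg')
        (fun k hk => hM k (by rw [keys_plug]; simp [hk]))
      have pc := phi_plug_congr (M := M) (f := f) fs _ _ hm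
      have mc := mn_plug_congr (M := M) (f := f) fs _ _ hm
      refine ⟨by simp only [semi]; rw [i1, hk2], ?_⟩
      simp only [semi, rotCount]
      rw [mc] at i2
      rw [hm] at i2
      rw [← hn]
      push_cast at i2 ⊢
      linarith
    | Fr.inR y c :: Fr.inL z d :: fs, hn =>
      simp only [List.length_cons] at hn
      obtain ⟨x, l, r, rfl⟩ : ∃ x l r, t = node x l r := by
        cases t with
        | nil => exact absurd rfl ht
        | node x l r => exact ⟨x, l, r, rfl⟩
      have hk : keys (node x (node y c l) (node z r d)) =
          keys (node z (node y c (node x l r)) d) := by simp [keys]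
      have hp : plug (Fr.inR y c :: Fr.inL z d :: fs) (node x l r) =
          plug fs (node z (node y c (node x l r)) d) := rfl
      rw [hp] at hs hg hM ⊢
      have hk2 : keys (plug fs (node x (node y c l) (node z r d))) =
          keys (plug fs (node z (node y c (node x l r)) d)) := by
        rw [keys_plug, keys_plug, hk]
      have hm : mn M f (node x (node y c l) (node z r d)) =
          mn M f (node z (node y c (node x l r)) d) := by
        simp only [mn, min_assoc, min_comm, min_left_comm]
      have a1 : mn M f (node z (node y c (node x l r)) d) ≤ mn M f (node y c (node x l r)) :=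
        mn_node_le_l _ _ _
      have a2 : mn M f (node y c (node x l r)) ≤ mn M f (node x l r) := mn_node_le_r _ _ _
      obtain ⟨i1, i2⟩ := ih fs.length (by omega) fs rfl (node x (node y c l) (node z r d))
        (by simp) (by omega) (by rw [hk2]; exact hs) (by rw [hk2]; exact hg)
        (by rw [hk2]; exact hM)
      have hs' := hs
      have hg' := hg
      rw [keys_plug] at hs' hg'
      have hs2 : (keys (node z (node y c (node x l r)) d)).Pairwise (· < ·) :=
        (List.pairwise_append.1 (List.pairwise_append.1 hs').1).2.1
      have st := zigzagR (M := M) (f := f) x y z l r c d h0 hs2 (goodM_infix hs' hg')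
        (fun k hk => hM k (by rw [keys_plug]; simp [hk]))
      have pc := phi_plug_congr (M := M) (f := f) fs _ _ hm
      have mc := mn_plug_congr (M := M) (f := f) fs _ _ hm
      refine ⟨by simp only [semi]; rw [i1, hk2], ?_⟩
      simp only [semi, rotCount]
      rw [mc] at i2
      rw [hm] at i2
      rw [← hn]
      push_cast at i2 ⊢
      linarith

/-- The access lemma for semisplaying, rotations included. -/
theorem access {x : ℕ} {t : Tr} (hb : IsBST t) (hx : x ∈ keys t)
    (hfx : f x < M) (hg : GoodM M f (keys t)) (hM : ∀ k ∈ keys t, f k ≤ M) :
    keys (semisplay x t) = keys t ∧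
    (dep x t : ℤ) + rotCount (locate x t []).1 + 4 * Phi M f (semisplay x t) ≤
      4 * Phi M f t + 8 * ((f x : ℤ) - mn M f t) + 1 := by
  obtain ⟨h1, h2⟩ := locate_spec x t [] hb hx
  have h1' : plug (locate x t []).1 (node x (locate x t []).2.1 (locate x t []).2.2) = t := h1
  have h2' : (locate x t []).1.length = dep x t := by simpa using h2
  have hm : mn M f (node x (locate x t []).2.1 (locate x t []).2.2) ≤ f x := by
    simp only [mn]; omega
  have hc := semi_pot (M := M) (f := f) (locate x t []).1
    (node x (locate x t []).2.1 (locate x t []).2.2) (by simp) (by omega)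
    (by rw [h1']; exact hb) (by rw [h1']; exact hg) (by rw [h1']; exact hM)
  rw [h1', h2'] at hc
  obtain ⟨c1, c2⟩ := hc
  refine ⟨c1, ?_⟩
  have : (mn M f (node x (locate x t []).2.1 (locate x t []).2.2) : ℤ) ≤ f x := by
    exact_mod_cast hm
  unfold semisplay
  push_cast at c2
  linarith

/-- The cost of semisplaying in terms of a level function. -/
theorem cost_level {D : ℕ → Prop} [DecidablePred D] (hM : ∀ k, f k ≤ M)
    (hDM : ∀ k, D k → f k < M) :
    ∀ (X : List ℕ) (T : Tr), IsBST T → GoodM M f (keys T) → (∀ x ∈ X, x ∈ keys T ∧ D x) →
      (costSemi T X : ℤ) ≤ (X.map (fun x => ((8 * f x + 2 : ℕ) : ℤ))).sum + 4 * Phi M f T := by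
  intro X
  induction X with
  | nil =>
    intro T _ _ _
    simp only [costSemi, List.map_nil, List.sum_nil]
    have := phi_nonneg M f T
    push_cast
    linarith
  | cons x X ih =>
    intro T hb hg hX
    obtain ⟨hx, hxD⟩ := hX x (by simp)
    obtain ⟨a1, a2⟩ := access (M := M) (f := f) hb hx (hDM x hxD) hg (fun k _ => hM k)
    have i := ih (semisplay x T) (by unfold IsBST; rw [a1]; exact hb) (by rw [a1]; exact hg)
      (fun y hy => by rw [a1]; exact hX y (by simp [hy]))
    simp only [costSemi, List.map_cons, List.sum_cons]
    have hm : (0 : ℤ) ≤ (mn M f T : ℤ) := by positivity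
    push_cast at i ⊢
    linarith

/-- Semisplaying and the number of distinct requested keys. -/
theorem cost_distinct {T : Tr} {X : List ℕ} (hb : IsBST T) (hX : ∀ x ∈ X, x ∈ keys T) :
    costSemi T X ≤ (8 * Nat.log 2 X.toFinset.card + 2) * X.length +
      (4 * Nat.log 2 X.toFinset.card + 4) * act (fun k => k ∈ X) T := by
  obtain ⟨f, f1, f2⟩ := exists_level (Nat.log 2 X.toFinset.card + 1) X.toFinset
    (Nat.lt_pow_succ_log_self (by norm_num) _)
  set L := Nat.log 2 X.toFinset.card with hL
  have h := cost_level (D := fun k => k ∈ X) (M := L + 1)
    (f := fun k => if k ∈ X then f k else L + 1)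
    (by
      intro k
      by_cases hk : k ∈ X
      · have := f1 k (by simpa using hk)
        simp only [if_pos hk]; omega
      · simp only [if_neg hk]; omega)
    (by
      intro k hk
      have := f1 k (by simpa using hk)
      simp only [if_pos hk]; omega) X T hb
    (by
      intro k _ k' _ hlt he hM
      by_cases c : k ∈ X
      · by_cases c' : k' ∈ X
        · simp only [if_pos c, if_pos c'] at he
          obtain ⟨j, hj, j1, j2, j3⟩ := f2 k (by simpa using c) k' (by simpa using c') hlt he
          have hj' : j ∈ X := by simpa using hj
          refine ⟨j, hX j hj', j1, j2, ?_⟩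
          simp only [if_pos c, if_pos hj']; exact j3
        · simp only [if_pos c, if_neg c'] at he hM
          omega
      · simp only [if_neg c] at hM
        omega)
    (fun x hx => ⟨hX x hx, hx⟩)
  have h2 := phi_le_act (D := fun k => k ∈ X) (M := L + 1)
    (f := fun k => if k ∈ X then f k else L + 1) (fun k hk => by simp only [if_neg hk])
    (by
      intro k
      by_cases hk : k ∈ X
      · have := f1 k (by simpa using hk)
        simp only [if_pos hk]; omega
      · simp only [if_neg hk]; omega) T
  have h3 : (X.map (fun x => ((8 * (if x ∈ X then f x else L + 1) + 2 : ℕ) : ℤ))).sum ≤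
      X.length * (8 * (L : ℤ) + 2) := by
    have : ∀ Y : List ℕ, (∀ y ∈ Y, y ∈ X) →
        (Y.map (fun x => ((8 * (if x ∈ X then f x else L + 1) + 2 : ℕ) : ℤ))).sum ≤
          Y.length * (8 * (L : ℤ) + 2) := by
      intro Y
      induction Y with
      | nil => intro _; simp
      | cons y Y ih =>
        intro hY
        have i := ih (fun z hz => hY z (by simp [hz]))
        have hy := hY y (by simp)
        have := f1 y (by simpa using hy)
        have h4 : ((f y : ℕ) : ℤ) ≤ L := by
          have : f y ≤ L := by omega
          exact_mod_cast this
        simp only [List.map_cons, List.sum_cons, List.length_cons, if_pos hy]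
        push_cast at i ⊢
        linarith
    exact this X (fun _ h => h)
  have h5 : (costSemi T X : ℤ) ≤ (((8 * L + 2) * X.length +
      (4 * L + 4) * act (fun k => k ∈ X) T : ℕ) : ℤ) := by
    push_cast at h2 ⊢
    linarith
  exact_mod_cast h5

end Pool.Agent.H68.SS
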