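import Pool.Agent.H68.SS.Access
import Pool.Graph.R_seed8.Y395.SP.UpCnt
import Pool.Graph.R_seed8.Y310.SP.SMO

set_option autoImplicit false

/-! Semisplaying against the offline optimum. -/

namespace Pool.Agent.H68.SS

open Pool.Agent.H581R2.Splay Tr Pool.Agent.TH908.SPL

theorem phi_le_sum (M : ℕ) (f : ℕ → ℕ) : ∀ t : Tr, Phi M f t ≤ (((keys t).map f).sum : ℕ) := by
  intro t
  induction t with
  | nil => simp [Phi, keys]
  | node a l r ihl ihr =>
    simp only [Phi, keys, List.map_append, List.map_cons, List.sum_append, List.sum_cons]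
    have : (0 : ℤ) ≤ (mn M f (node a l r) : ℤ) := by positivity
    push_cast at ihl ihr ⊢
    linarith

/-- Semisplaying and a static tree with the same keys. -/
theorem cost_tree {T R : Tr} (hT : IsBST T) (hk : keys R = keys T) {X : List ℕ}
    (hX : ∀ x ∈ X, x ∈ keys T) :
    costSemi T X ≤ 2 * X.length + 8 * (X.map fun x => dep x R).sum +
      4 * ((keys T).map fun a => dep a R).sum := by
  classical
  have hR : IsBST R := by unfold IsBST; rw [hk]; exact hT
  obtain ⟨h, hh⟩ : ∃ h, ∀ k ∈ keys T, dep k R ≤ h := by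
    refine ⟨(keys T).toFinset.sup fun k => dep k R, fun k hk => ?_⟩
    exact Finset.le_sup (f := fun k => dep k R) (List.mem_toFinset.2 hk)
  have gd := good_dep R hR
  have h1 := cost_level (D := fun k => k ∈ keys T) (M := h + 1)
    (f := fun k => if k ∈ keys T then dep k R else h + 1)
    (by
      intro k
      by_cases hk : k ∈ keys T
      · have := hh k hk
        simp only [if_pos hk]; omega
      · simp only [if_neg hk]; omega)
    (by
      intro k hk
      have := hh k hk
      simp only [if_pos hk]; omega) X T hT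
    (by
      intro k c k' c' hlt he _
      simp only [if_pos c, if_pos c'] at he
      obtain ⟨j, hj, j1, j2, j3⟩ := gd k (by rw [hk]; exact c) k' (by rw [hk]; exact c') hlt he
      rw [hk] at hj
      refine ⟨j, hj, j1, j2, ?_⟩
      simp only [if_pos c, if_pos hj]; exact j3)
    (fun x hx => ⟨hX x hx, hX x hx⟩)
  have h2 := phi_le_sum (h + 1) (fun k => if k ∈ keys T then dep k R else h + 1) T
  have h3 : (keys T).map (fun k => if k ∈ keys T then dep k R else h + 1) =
      (keys T).map fun a => dep a R :=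
    List.map_congr_left fun a ha => by simp only [if_pos ha]
  rw [h3] at h2
  have h4 : (X.map (fun x => ((8 * (if x ∈ keys T then dep x R else h + 1) + 2 : ℕ) : ℤ))).sum =
      ((2 * X.length + 8 * (X.map fun x => dep x R).sum : ℕ) : ℤ) := by
    have : ∀ Y : List ℕ, (∀ y ∈ Y, y ∈ keys T) →
        (Y.map (fun x => ((8 * (if x ∈ keys T then dep x R else h + 1) + 2 : ℕ) : ℤ))).sum =
          ((2 * Y.length + 8 * (Y.map fun x => dep x R).sum : ℕ) : ℤ) := by
      intro Y
      induction Y with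
      | nil => intro _; simp
      | cons y Y ih =>
        intro hY
        have i := ih (fun z hz => hY z (by simp [hz]))
        have hy := hY y (by simp)
        simp only [List.map_cons, List.sum_cons, List.length_cons, if_pos hy, i]
        push_cast
        ring
    exact this X hX
  rw [h4] at h1
  have h5 : (costSemi T X : ℤ) ≤ ((2 * X.length + 8 * (X.map fun x => dep x R).sum +
      4 * ((keys T).map fun a => dep a R).sum : ℕ) : ℤ) := by
    push_cast at h1 h2 ⊢
    linarith
  exact_mod_cast h5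

theorem act_le_len {D : ℕ → Prop} [DecidablePred D] : ∀ t : Tr, act D t ≤ (keys t).length := by
  intro t
  induction t with
  | nil => simp [act]
  | node a l r ihl ihr =>
    have e : (keys (node a l r)).length = (keys l).length + (keys r).length + 1 := by
      simp only [keys, List.length_append, List.length_cons]; omega
    rw [e]
    simp only [act]
    by_cases h : ∃ k ∈ keys (node a l r), D k
    · rw [if_pos h]; omega
    · rw [if_neg h]; omega

theorem one_le_len {T : Tr} (hn : T ≠ Tr.nil) : 1 ≤ (keys T).length := by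
  cases hTc : T with
  | nil => exact absurd hTc hn
  | node a l r => simp only [keys, List.length_append, List.length_cons]; omega

/-- The bound by `log₂ n`. -/
theorem upper {T : Tr} {X : List ℕ} (hT : IsBST T) (hn : T ≠ Tr.nil) (hX : ∀ x ∈ X, x ∈ keys T) :
    (costSemi T X : ℝ) ≤ 2 * X.length + 8 * (X.length * Real.logb 2 (keys T).length) +
      4 * ((keys T).length * Real.logb 2 (2 * (keys T).length)) := by
  have h1 := cost_distinct hT hX
  have hn1 := one_le_len hn
  have h2 : X.toFinset.card ≤ (keys T).length := by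
    refine (Finset.card_le_card ?_).trans (List.toFinset_card_le (keys T))
    intro x hx
    rw [List.mem_toFinset] at hx ⊢
    exact hX x hx
  have h3 : Nat.log 2 X.toFinset.card ≤ Nat.log 2 (keys T).length := Nat.log_mono_right h2
  have h4 := act_le_len (D := fun k => k ∈ X) T
  set n := (keys T).length with hnn
  have hn0 : (0 : ℝ) < n := by exact_mod_cast hn1
  have h5 : ((Nat.log 2 n : ℕ) : ℝ) ≤ Real.logb 2 n := by
    rw [Real.le_logb_iff_rpow_le (by norm_num) hn0, Real.rpow_natCast]
    exact_mod_cast Nat.pow_log_le_self 2 (by omega)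
  have h6 : costSemi T X ≤ (8 * Nat.log 2 n + 2) * X.length + (4 * Nat.log 2 n + 4) * n :=
    h1.trans (by gcongr)
  have h7 : (costSemi T X : ℝ) ≤ (8 * (Nat.log 2 n : ℕ) + 2) * X.length +
      (4 * (Nat.log 2 n : ℕ) + 4) * n := by exact_mod_cast h6
  have h8 : Real.logb 2 (2 * (n : ℝ)) = 1 + Real.logb 2 n := by
    rw [Real.logb_mul (by norm_num) (by positivity), Real.logb_self_eq_one (by norm_num)]
  rw [h8]
  have h9 : (0 : ℝ) ≤ X.length := Nat.cast_nonneg _
  nlinarith [mul_le_mul_of_nonneg_right h5 h9, mul_le_mul_of_nonneg_right h5 hn0.le]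

theorem rots_conv {T T' : Tr} {e : ℕ} (h : Pool.Agent.TH49.Spl.RotN e T T') : Rots1 T T' e := by
  induction h with
  | refl T => exact Rots1.refl T
  | step e s T T' T'' hr _ ih => exact Rots1.step _ _ _ s e hr ih

theorem exec_conv {T : Tr} {X : List ℕ} {c : ℕ} (h : Pool.Agent.TH49.Spl.Exec T X c) :
    Exec T X c := by
  induction h with
  | nil T => exact Exec.nil T
  | cons T T' x Y e c hr _ ih => exact Exec.cons T T' x Y e c (rots_conv hr) ih

/-- Few distinct keys. -/
theorem few_keys {T : Tr} {X : List ℕ} {c : ℕ} (hT : IsBST T) (hX : ∀ x ∈ X, x ∈ keys T)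
    (h : Pool.Agent.TH49.Spl.Exec T X c) :
    costSemi T X ≤ (12 * Nat.log 2 X.toFinset.card + 6) * c := by
  have h1 := cost_distinct hT hX
  have h2 := act_le_exec (exec_conv h) hT
  have h3 := length_le_exec (exec_conv h)
  generalize Nat.log 2 X.toFinset.card = L at *
  calc costSemi T X ≤ (8 * L + 2) * X.length + (4 * L + 4) * act (fun k => k ∈ X) T := h1
    _ ≤ (8 * L + 2) * c + (4 * L + 4) * c := by gcongr
    _ = (12 * L + 6) * c := by ring

end Pool.Agent.H68.SS

namespace Pool.Agent.H68.SS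

open Pool.Agent.H581R2.Splay Pool.Agent.TH49.Spl Pool.Agent.Y395.SP

theorem gsum_dep (R : Tr) (X : List ℕ) :
    ∀ h, gsum (fun _ x => (dep x R : ℝ)) h X = ((X.map fun x => dep x R).sum : ℕ) := by
  induction X with
  | nil => intro h; simp [gsum]
  | cons x X ih => intro h; simp only [gsum, ih, List.map_cons, List.sum_cons]; push_cast; ring

/-- Random requests whose conditional probabilities are bounded by a static law. -/
theorem random (T : Tr) (hT : IsBST T) (hn : T ≠ Tr.nil) (π : List ℕ → ℕ → ℝ)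
    (h0 : ∀ h x, 0 ≤ π h x) (p : ℕ → ℝ) (hp0 : ∀ x, 0 ≤ p x)
    (hp1 : ∑ x ∈ (keys T).toFinset, p x ≤ 1) (A δ : ℝ) (hA : 1 ≤ A) (hδ : 0 < δ) (hδ1 : δ ≤ 1)
    (hπ : ∀ h, ∀ x ∈ keys T, π h x ≤ A * p x ^ δ) (m : ℕ) :
    ∑ X ∈ (seqs (keys T).toFinset m).filter (fun X =>
      ((98 + 8 * Real.logb 2 A) * (optAny (keys T) (List.ofFn X) : ℝ) +
        44 * ((keys T).length * Real.logb 2 (2 * (keys T).length))) / δ <
          costSemi T (List.ofFn X)), law π [] (List.ofFn X) ≤ (1 / 2 : ℝ) ^ m := by
  classical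
  have hn1 := one_le_len hn
  have hn1' : (1 : ℝ) ≤ (keys T).length := by exact_mod_cast hn1
  -- the reference tree
  obtain ⟨R, hR1, hR2⟩ : ∃ t : Tr, keys t = keys T ∧
      ∀ a ∈ keys T, ((p a + 1 / ((keys T).length : ℝ)) / 2) * 2 ^ dep a t ≤ 1 := by
    obtain ⟨t, t1, t2⟩ := wbt (fun a => (p a + 1 / ((keys T).length : ℝ)) / 2)
      (fun a => by have := hp0 a; positivity) _ (keys T) rfl hT
    refine ⟨t, t1, fun a ha => (t2 a ha).trans ?_⟩
    have hnd : (keys T).Nodup := hT.imp (fun h => ne_of_lt h)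
    have e1 : ((keys T).map p).sum ≤ 1 := by
      rw [← List.sum_toFinset _ hnd]; exact hp1
    rw [half_sum, mul_one_div_cancel (by linarith)]
    linarith
  have hd : ∀ a ∈ keys T, (dep a R : ℝ) ≤ Real.logb 2 (2 * (keys T).length) := by
    intro a ha
    have h2 := hR2 a ha
    have h3 := hp0 a
    rw [Real.le_logb_iff_rpow_le (by norm_num) (by positivity), Real.rpow_natCast]
    have h4 : (1 / ((keys T).length : ℝ)) / 2 * 2 ^ dep a R ≤ 1 := by
      refine le_trans (mul_le_mul_of_nonneg_right ?_ (by positivity)) h2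
      linarith
    have h5 : (2 : ℝ) ^ dep a R = 2 * (keys T).length *
        ((1 / ((keys T).length : ℝ)) / 2 * 2 ^ dep a R) := by
      field_simp
    rw [h5]
    calc _ ≤ 2 * ((keys T).length : ℝ) * 1 := mul_le_mul_of_nonneg_left h4 (by positivity)
      _ = _ := mul_one _
  have hp : ∀ x ∈ keys T, p x ≤ 2 * (2 : ℝ) ^ (-(dep x R : ℝ)) := by
    intro x hx
    have h2 := hR2 x hx
    have h3 : p x / 2 * 2 ^ dep x R ≤ 1 := by
      refine le_trans (mul_le_mul_of_nonneg_right ?_ (by positivity)) h2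
      have : (0 : ℝ) ≤ 1 / ((keys T).length : ℝ) := by positivity
      linarith
    rw [Real.rpow_neg (by norm_num), Real.rpow_natCast]
    rw [← div_eq_mul_inv, le_div_iff₀ (by positivity)]
    linarith
  have hπ' : ∀ h, ∀ x ∈ (keys T).toFinset, π h x ≤ (2 * A) * (2 : ℝ) ^ (-(δ * (dep x R : ℝ))) := by
    intro h x hx
    have hx := List.mem_toFinset.1 hx
    refine (hπ h x hx).trans ?_
    have h3 : (p x) ^ δ ≤ (2 * (2 : ℝ) ^ (-(dep x R : ℝ))) ^ δ :=
      Real.rpow_le_rpow (hp0 x) (hp x hx) hδ.le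
    rw [Real.mul_rpow (by norm_num) (by positivity), ← Real.rpow_mul (by norm_num)] at h3
    have h4 : (2 : ℝ) ^ δ ≤ 2 := by
      calc (2 : ℝ) ^ δ ≤ (2 : ℝ) ^ (1 : ℝ) := Real.rpow_le_rpow_of_exponent_le (by norm_num) hδ1
        _ = 2 := by norm_num
    have h5 : -(dep x R : ℝ) * δ = -(δ * dep x R) := by ring
    rw [h5] at h3
    calc A * (p x) ^ δ ≤ A * ((2 : ℝ) ^ δ * (2 : ℝ) ^ (-(δ * (dep x R : ℝ)))) :=
          mul_le_mul_of_nonneg_left h3 (by linarith)
      _ ≤ A * (2 * (2 : ℝ) ^ (-(δ * (dep x R : ℝ)))) := by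
          refine mul_le_mul_of_nonneg_left ?_ (by linarith)
          exact mul_le_mul_of_nonneg_right h4 (by positivity)
      _ = _ := by ring
  have h2A : Real.logb 2 (2 * A) = 1 + Real.logb 2 A := by
    rw [Real.logb_mul (by norm_num) (by linarith), Real.logb_self_eq_one (by norm_num)]
  refine markov (keys T).toFinset _
    (fun X => 10 * optAny (keys T) (List.ofFn X) + 2 * (keys T).length + 3) _
    (kraft2_holds m (keys T) hT) ?_
  intro X hX hbad
  by_contra hcon
  push Not at hcon
  refine absurd hbad (not_lt.mpr ?_)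
  have hXK : ∀ x ∈ List.ofFn X, x ∈ (keys T).toFinset := by
    intro x hx
    rw [List.mem_ofFn] at hx
    obtain ⟨i, rfl⟩ := hx
    exact (Fintype.mem_piFinset.mp hX) i
  have hXK' : ∀ x ∈ List.ofFn X, x ∈ keys T := fun x hx => List.mem_toFinset.mp (hXK x hx)
  have hlen : (List.ofFn X).length = m := by simp
  have h1 := log_law (K := (keys T).toFinset) (g := fun _ x => (dep x R : ℝ)) h0
    (A := 2 * A) (by linarith) (δ := δ) hπ' hXK hcon.le
  rw [gsum_dep, hlen, h2A] at h1
  have h2 := cost_tree hT hR1 hXK'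
  rw [hlen] at h2
  have h3 : m ≤ optAny (keys T) (List.ofFn X) := by
    have := len_optAny (T := T) (List.ofFn X); rwa [hlen] at this
  set o : ℝ := (optAny (keys T) (List.ofFn X) : ℝ) with ho
  have h3' : (m : ℝ) ≤ o := by rw [ho]; exact_mod_cast h3
  have hL : 0 ≤ Real.logb 2 A := Real.logb_nonneg (by norm_num) hA
  set n : ℝ := ((keys T).length : ℝ) with hnn
  set lg : ℝ := Real.logb 2 (2 * n) with hlgd
  have hlg1 : 1 ≤ lg := by
    rw [hlgd, Real.logb_mul (by norm_num) (by linarith), Real.logb_self_eq_one (by norm_num)]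
    have := Real.logb_nonneg (b := 2) (by norm_num) hn1'
    linarith
  have h7 : ((((keys T).map fun a => dep a R).sum : ℕ) : ℝ) ≤ n * lg := by
    have e1 : ((((keys T).map fun a => dep a R).sum : ℕ) : ℝ) =
        ((keys T).map fun a => (dep a R : ℝ)).sum := by
      rw [Nat.cast_list_sum, List.map_map]; rfl
    rw [e1]
    have : ((keys T).map fun a => (dep a R : ℝ)).sum ≤ ((keys T).map fun _ => lg).sum :=
      List.sum_le_sum fun a ha => hd a ha
    refine this.trans (le_of_eq ?_)
    simp only [List.map_const', List.sum_replicate, nsmul_eq_mul, hnn]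
  set S : ℝ := ((((List.ofFn X).map fun x => dep x R).sum : ℕ) : ℝ) with hS
  push_cast at h1
  rw [← ho] at h1
  have h2' : (costSemi T (List.ofFn X) : ℝ) ≤ 2 * m + 8 * S +
      4 * ((((keys T).map fun a => dep a R).sum : ℕ) : ℝ) := by
    rw [hS]; exact_mod_cast h2
  have hnl : n ≤ n * lg := by nlinarith
  rw [le_div_iff₀ hδ]
  have h4 : δ * S ≤ (12 + Real.logb 2 A) * o + 2 * n + 3 := by
    have e1 : (m : ℝ) * Real.logb 2 A ≤ o * Real.logb 2 A := mul_le_mul_of_nonneg_right h3' hL
    have e2 : δ * S ≤ 10 * o + 2 * n + 3 + m + m * (1 + Real.logb 2 A) := by linarith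
    linarith
  have hS0 : 0 ≤ S := by rw [hS]; positivity
  have hm0 : (0 : ℝ) ≤ m := Nat.cast_nonneg _
  have hnl0 : 0 ≤ n * lg := by nlinarith
  have h5 : (costSemi T (List.ofFn X) : ℝ) * δ ≤ (2 * m + 8 * S + 4 * (n * lg)) * δ :=
    mul_le_mul_of_nonneg_right (by linarith) hδ.le
  have h6 : (2 * (m : ℝ) + 4 * (n * lg)) * δ ≤ 2 * o + 4 * (n * lg) := by
    calc (2 * (m : ℝ) + 4 * (n * lg)) * δ ≤ (2 * (m : ℝ) + 4 * (n * lg)) * 1 :=
          mul_le_mul_of_nonneg_left hδ1 (by positivity)
      _ ≤ _ := by linarith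
  have h8 : (2 * (m : ℝ) + 8 * S + 4 * (n * lg)) * δ =
      (2 * (m : ℝ) + 4 * (n * lg)) * δ + 8 * (δ * S) := by ring
  have h9 : (1 : ℝ) ≤ n * lg := by nlinarith
  linarith

end Pool.Agent.H68.SS
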