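import Pool.Agent.H68.SS.Main

set_option autoImplicit false

/-! Semisplaying: few exceptional sequences, smoothed requests. -/

namespace Pool.Agent.H68.SS

open Pool.Agent.H581R2.Splay Pool.Agent.TH49.Spl Pool.Agent.Y395.SP Pool.Agent.Y310.SP.SMO

open scoped Classical in
/-- Few request sequences are exceptional. -/
theorem exceptions (T : Tr) (hT : IsBST T) (hT0 : T ≠ Tr.nil) (m : ℕ) (ε : ℝ) (hε : 0 < ε)
    (hnm : (keys T).length ≤ m) :
    (((seqs (keys T).toFinset m).filter (fun X =>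
      240 / ε * (optAny (keys T) (List.ofFn X) : ℝ) < costSemi T (List.ofFn X))).card : ℝ) ≤
      (2 * (keys T).length : ℝ) ^ (ε * m) := by
  have hC := count_holds
  have hn1 := one_le_len hT0
  obtain ⟨n, hn⟩ : ∃ n : ℕ, n = (keys T).length := ⟨_, rfl⟩
  rw [← hn] at hn1
  rw [← hn] at hnm ⊢
  have hn1' : (1 : ℝ) ≤ n := by exact_mod_cast hn1
  have hnm' : (n : ℝ) ≤ m := by exact_mod_cast hnm
  have hm1 : (1 : ℝ) ≤ m := hn1'.trans hnm'
  obtain ⟨l, hl⟩ : ∃ l : ℝ, l = Real.logb 2 n := ⟨_, rfl⟩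
  have hl0 : 0 ≤ l := by
    rw [hl]
    exact Real.logb_nonneg (by norm_num) hn1'
  obtain ⟨L, hL⟩ : ∃ L : ℝ, L = 1 + l := ⟨_, rfl⟩
  have hL1 : 1 ≤ L := by linarith
  have h2n : Real.logb 2 (2 * (n : ℝ)) = L := by
    rw [Real.logb_mul (by norm_num) (by positivity), Real.logb_self_eq_one (by norm_num), hL, hl]
  have hpow : (2 * (n : ℝ)) ^ (ε * m) = (2 : ℝ) ^ (L * (ε * m)) := by
    rw [Real.rpow_mul (by norm_num : (0 : ℝ) ≤ 2) L, ← h2n, Real.rpow_logb (by norm_num)
      (by norm_num) (by positivity)]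
  have hbad : ∀ X : Fin m → ℕ, X ∈ seqs (keys T).toFinset m →
      240 / ε * (optAny (keys T) (List.ofFn X) : ℝ) < costSemi T (List.ofFn X) →
      (optAny (keys T) (List.ofFn X) : ℝ) ≤ m * L * ε / 20 ∧ 20 < ε * L := by
    intro X hX hb
    have hmem : ∀ x ∈ List.ofFn X, x ∈ keys T := by
      intro x hx
      rw [List.mem_ofFn] at hx
      obtain ⟨i, rfl⟩ := hx
      have h1 := Fintype.mem_piFinset.1 hX i
      exact List.mem_toFinset.1 h1
    have h1 := upper hT hT0 hmem
    rw [List.length_ofFn, ← hn, ← hl, h2n] at h1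
    have h2 : (costSemi T (List.ofFn X) : ℝ) ≤ 12 * (m * L) := by
      have h3 : (n : ℝ) * L ≤ m * L := mul_le_mul_of_nonneg_right hnm' (by linarith)
      have h4 : (m : ℝ) * L = m + m * l := by rw [hL]; ring
      nlinarith
    have h4 : (m : ℝ) ≤ optAny (keys T) (List.ofFn X) := by
      have h5 := len_optAny (T := T) (List.ofFn X)
      rw [List.length_ofFn] at h5
      exact_mod_cast h5
    have h6 : 240 * (optAny (keys T) (List.ofFn X) : ℝ) < ε * (12 * (m * L)) := by
      have h7 := hb.trans_le h2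
      rw [div_mul_eq_mul_div, div_lt_iff₀ hε] at h7
      linarith
    refine ⟨by linarith, ?_⟩
    by_contra hcon
    push Not at hcon
    have h8 : m * (ε * L) ≤ m * 20 := mul_le_mul_of_nonneg_left hcon (by linarith)
    nlinarith
  by_cases hεL : 20 < ε * L
  · have h1 := hC T hT m (m * L * ε / 20)
    rw [← hn] at h1
    have h2 : (((seqs (keys T).toFinset m).filter (fun X =>
        240 / ε * (optAny (keys T) (List.ofFn X) : ℝ) < costSemi T (List.ofFn X))).card : ℝ) ≤
        (((seqs (keys T).toFinset m).filter (fun X =>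
          (optAny (keys T) (List.ofFn X) : ℝ) ≤ m * L * ε / 20)).card : ℝ) := by
      have h3 : ((seqs (keys T).toFinset m).filter (fun X =>
          240 / ε * (optAny (keys T) (List.ofFn X) : ℝ) < costSemi T (List.ofFn X))) ⊆
          ((seqs (keys T).toFinset m).filter (fun X =>
          (optAny (keys T) (List.ofFn X) : ℝ) ≤ m * L * ε / 20)) := by
        intro X hX
        rw [Finset.mem_filter] at hX ⊢
        exact ⟨hX.1, (hbad X hX.1 hX.2).1⟩
      exact_mod_cast Finset.card_le_card h3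
    refine h2.trans (h1.trans ?_)
    rw [hpow]
    apply Real.rpow_le_rpow_of_exponent_le (by norm_num)
    have h4 : 20 * (m : ℝ) ≤ ε * L * m := mul_le_mul_of_nonneg_right hεL.le (by linarith)
    nlinarith
  · have h1 : ((seqs (keys T).toFinset m).filter (fun X =>
        240 / ε * (optAny (keys T) (List.ofFn X) : ℝ) < costSemi T (List.ofFn X))) = ∅ := by
      rw [Finset.filter_eq_empty_iff]
      intro X hX hb
      exact hεL (hbad X hX hb).2
    have h2 : (0 : ℝ) ≤ (2 * (n : ℝ)) ^ (ε * m) := by positivity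
    rw [h1]
    simpa using h2

/-- Smoothed requests. -/
theorem smoothed (T : Tr) (hT : IsBST T) (hn : T ≠ Tr.nil) (π : List ℕ → ℕ → ℝ)
    (h0 : ∀ h x, 0 ≤ π h x) (h1 : ∀ h, ∑ x ∈ (keys T).toFinset, π h x = 1)
    (A δ ε : ℝ) (hA : 1 ≤ A) (hδ : 0 < δ) (hδ1 : δ ≤ 1) (hε : 0 < ε) (hε1 : ε ≤ 1)
    (hgood : ∀ h, ε ≤ ∑ x ∈ (keys T).toFinset.filter
      (fun x => π h x ≤ A * ((keys T).length : ℝ) ^ (-δ)), π h x) (m : ℕ) :
    1 - (1 / 2 : ℝ) ^ m - Real.exp (-(ε * m / 4)) ≤
      prob (keys T).toFinset π m (fun X => (costSemi T X : ℝ) ≤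
        ((354 + 8 * Real.logb 2 A) * (optAny (keys T) X : ℝ) +
          164 * ((keys T).length * Real.logb 2 (2 * (keys T).length))) / (ε * δ)) := by
  classical
  set K := (keys T).toFinset with hK
  set n : ℝ := ((keys T).length : ℝ) with hnn
  have hnat : 1 ≤ (keys T).length := one_le_len hn
  have hn1 : (1 : ℝ) ≤ n := by
    rw [hnn]; exact_mod_cast hnat
  have hn0 : (0 : ℝ) < n := by linarith
  have hA0 : (0 : ℝ) < A := by linarith
  set q : ℝ := A * n ^ (-δ) with hq
  have hq0 : 0 < q := by positivity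
  set good : List ℕ → ℕ → Prop := fun h x => π h x ≤ q with hgd
  have hπ1 : ∀ h, ∀ x ∈ K, π h x ≤ 1 := by
    intro h x hx
    rw [← h1 h]
    exact Finset.single_le_sum (fun y _ => h0 h y) hx
  have hw : ∀ h, ∑ x ∈ K, Pool.Agent.Y310.SP.SMO.wt good π h x ≤ 1 - ε / 2 := by
    intro h
    have h2 := hgood h
    rw [Finset.sum_filter] at h2
    have h3 : ∀ x ∈ K, Pool.Agent.Y310.SP.SMO.wt good π h x =
        π h x - 1 / 2 * (if π h x ≤ A * n ^ (-δ) then π h x else 0) := by
      intro x _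
      unfold Pool.Agent.Y310.SP.SMO.wt
      by_cases hx : good h x
      · have hx' : π h x ≤ A * n ^ (-δ) := hx
        rw [if_pos hx, if_pos hx']; ring
      · have hx' : ¬ π h x ≤ A * n ^ (-δ) := hx
        rw [if_neg hx, if_neg hx']; ring
    rw [Finset.sum_congr rfl h3, Finset.sum_sub_distrib, h1 h, ← Finset.mul_sum]
    linarith
  have hL : 0 ≤ Real.logb 2 A := Real.logb_nonneg (by norm_num) hA
  have hlg : Real.logb 2 (2 * n) = 1 + Real.logb 2 n := by
    rw [Real.logb_mul (by norm_num) (by linarith), Real.logb_self_eq_one (by norm_num)]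
  have hlg0 : 0 ≤ Real.logb 2 n := Real.logb_nonneg (by norm_num) hn1
  set e : (Fin m → ℕ) → ℕ := fun X => 10 * optAny (keys T) (List.ofFn X) +
    2 * (keys T).length + 3 with he
  have hE1 : ∑ X ∈ (seqs K m).filter (fun X => law π [] (List.ofFn X) ≤ (1 / 2 : ℝ) ^ (e X + m)),
      law π [] (List.ofFn X) ≤ (1 / 2 : ℝ) ^ m :=
    markov K (fun X => law π [] (List.ofFn X)) e _ (kraft2_holds m (keys T) hT)
      (fun X _ hX => hX)
  have hE2 : ∑ X ∈ (seqs K m).filter (fun X => (Z good [] (List.ofFn X) : ℝ) ≤ ε * m / 4),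
      law π [] (List.ofFn X) ≤ Real.exp (-(ε * m / 4)) :=
    few h0 hε hε1 hw m _ (fun X hX => hX)
  have hgoal : 1 - ((1 / 2 : ℝ) ^ m + Real.exp (-(ε * m / 4))) ≤
    prob K π m (fun X => (costSemi T X : ℝ) ≤
      ((354 + 8 * Real.logb 2 A) * (optAny (keys T) X : ℝ) +
        164 * (n * Real.logb 2 (2 * n))) / (ε * δ)) := by
    refine prob_compl h1 ?_
    unfold prob
    refine le_trans ?_ (add_le_add hE1 hE2)
    refine le_trans (Finset.sum_le_sum_of_subset_of_nonneg
      (t := (seqs K m).filter (fun X => law π [] (List.ofFn X) ≤ (1 / 2 : ℝ) ^ (e X + m)) ∪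
        (seqs K m).filter (fun X => (Z good [] (List.ofFn X) : ℝ) ≤ ε * m / 4)) ?_
      (fun X _ _ => law_nonneg h0 _ _)) ?_
    · intro X hX
      obtain ⟨hXs, hbad⟩ := (@Finset.mem_filter _ _ (_) _ _).1 hX
      rw [Finset.mem_union, Finset.mem_filter, Finset.mem_filter]
      by_contra hcon
      push Not at hcon
      obtain ⟨hc1, hc2⟩ := hcon
      have hc1 := hc1 hXs
      have hc2 := hc2 hXs
      apply hbad
      have hXK : ∀ x ∈ List.ofFn X, x ∈ K := by
        intro x hx
        rw [List.mem_ofFn] at hx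
        obtain ⟨i, rfl⟩ := hx
        exact (Fintype.mem_piFinset.mp hXs) i
      have hXK' : ∀ x ∈ List.ofFn X, x ∈ keys T := fun x hx => List.mem_toFinset.mp (hXK x hx)
      have hlen : (List.ofFn X).length = m := by simp
      have h2 := law_le_Z h0 hπ1 hq0.le (good := good) (fun h x hx => hx) (List.ofFn X) [] hXK
      have h3 : (1 / 2 : ℝ) ^ (e X + m) ≤ q ^ (Z good [] (List.ofFn X)) := hc1.le.trans h2
      have h4 := Real.logb_le_logb_of_le (b := 2) (by norm_num) (by positivity) h3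
      rw [Real.logb_pow, Real.logb_pow] at h4
      have e1 : Real.logb 2 (1 / 2 : ℝ) = -1 := by
        rw [one_div, Real.logb_inv, Real.logb_self_eq_one (by norm_num)]
      have e2 : Real.logb 2 q = Real.logb 2 A - δ * Real.logb 2 n := by
        rw [hq, Real.logb_mul hA0.ne' (by positivity), Real.logb_rpow_eq_mul_logb_of_pos hn0]
        ring
      rw [e1, e2] at h4
      have h5 := upper hT hn hXK'
      rw [hlen] at h5
      have h6 : m ≤ optAny (keys T) (List.ofFn X) := by
        have := len_optAny (T := T) (List.ofFn X); rwa [hlen] at this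
      rw [he] at h4
      simp only at h4
      push_cast at h4
      set o : ℝ := (optAny (keys T) (List.ofFn X) : ℝ) with ho
      have h6' : (m : ℝ) ≤ o := by rw [ho]; exact_mod_cast h6
      have hm0 : (0 : ℝ) ≤ m := Nat.cast_nonneg m
      rw [← hnn, hlg] at h5
      set l : ℝ := Real.logb 2 n with hl
      set a : ℝ := Real.logb 2 A with ha
      set z : ℝ := (Z good [] (List.ofFn X) : ℝ) with hz
      rw [← hnn] at h4
      have h7 : ε * m / 4 * (δ * l - a) ≤ 10 * o + 2 * n + 3 + m := by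
        rcases le_total 0 (δ * l - a) with hs | hs
        · have h8 : ε * m / 4 * (δ * l - a) ≤ z * (δ * l - a) :=
            mul_le_mul_of_nonneg_right hc2.le hs
          linarith
        · have h8 : ε * m / 4 * (δ * l - a) ≤ 0 :=
            mul_nonpos_of_nonneg_of_nonpos (by positivity) hs
          have h9 : 0 ≤ o := hm0.trans h6'
          linarith
      have h8 : ε * δ * (m * l) ≤ (44 + a) * o + 20 * n := by
        have h9 : ε * m * a ≤ o * a := by
          have : ε * m ≤ o := by nlinarith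
          exact mul_le_mul_of_nonneg_right this hL
        nlinarith
      have hεδ : 0 < ε * δ := mul_pos hε hδ
      have hεδ1 : ε * δ ≤ 1 := by nlinarith
      rw [hlg, le_div_iff₀ hεδ]
      have h9 : (costSemi T (List.ofFn X) : ℝ) * (ε * δ) ≤
          (2 * m + 8 * (m * l) + 4 * (n * (1 + l))) * (ε * δ) :=
        mul_le_mul_of_nonneg_right h5 hεδ.le
      have hnl : 0 ≤ n * l := mul_nonneg hn0.le hlg0
      have h10 : (2 * (m : ℝ) + 4 * (n * (1 + l))) * (ε * δ) ≤ 2 * m + 4 * (n * (1 + l)) := by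
        have hp : 0 ≤ 2 * (m : ℝ) + 4 * (n * (1 + l)) := by nlinarith
        calc (2 * (m : ℝ) + 4 * (n * (1 + l))) * (ε * δ) ≤ (2 * (m : ℝ) + 4 * (n * (1 + l))) * 1 :=
              mul_le_mul_of_nonneg_left hεδ1 hp
          _ = _ := mul_one _
      nlinarith
    · have h2 := Finset.sum_union_inter (f := fun X => law π [] (List.ofFn X))
        (s₁ := (seqs K m).filter (fun X => law π [] (List.ofFn X) ≤ (1 / 2 : ℝ) ^ (e X + m)))
        (s₂ := (seqs K m).filter (fun X => (Z good [] (List.ofFn X) : ℝ) ≤ ε * m / 4))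
      have h3 : 0 ≤ ∑ X ∈ (seqs K m).filter (fun X =>
          law π [] (List.ofFn X) ≤ (1 / 2 : ℝ) ^ (e X + m)) ∩
          (seqs K m).filter (fun X => (Z good [] (List.ofFn X) : ℝ) ≤ ε * m / 4),
          law π [] (List.ofFn X) := Finset.sum_nonneg fun X _ => law_nonneg h0 _ _
      linarith
  linarith

end Pool.Agent.H68.SS
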